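import Pool.Agent.Run7.h900.MX.Stm

/-!
Piece STR of helper900's theorem on profinite groups with the maximum condition on closed subgroups
(MP_c2f9c6_al).  Author: helper559.
-/

universe u

namespace Run7.h559.MX

open Run7.h900.MX
open scoped Pointwise

section finite

variable {Γ : Type u} [Group Γ]

theorem pnil_mono [Finite Γ] {p : ℕ} {N M : Subgroup Γ} (h : PNil p N) (hM : M.Normal)
    (hMN : M ≤ N) : PNil p M := by
  obtain ⟨K, hK, hKN, hc, hx⟩ := h
  refine ⟨K ⊓ M, Subgroup.normal_inf_normal K M, inf_le_right, ?_, ?_⟩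
  · intro hd
    exact hc (hd.trans (Subgroup.card_dvd_of_le inf_le_left))
  · intro x hxM
    obtain ⟨k, hk⟩ := hx x (hMN hxM)
    exact ⟨k, hk, M.pow_mem hxM _⟩

end finite

section prof

variable {G : Type u} [Group G] [TopologicalSpace G] [IsTopologicalGroup G] [CompactSpace G]

theorem fin_quot (U : OpenNormalSubgroup G) : Finite (G ⧸ U.toSubgroup) :=
  Subgroup.quotient_finite_of_isOpen U.toSubgroup U.isOpen'

theorem pr_eq_one {U : OpenNormalSubgroup G} {x : G} : pr U x = 1 ↔ x ∈ U.toSubgroup := by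
  show (QuotientGroup.mk' U.toSubgroup) x = 1 ↔ _
  rw [QuotientGroup.mk'_apply, QuotientGroup.eq_one_iff]

theorem pr_eq {U : OpenNormalSubgroup G} {x y : G} : pr U x = pr U y ↔ x⁻¹ * y ∈ U.toSubgroup := by
  show (QuotientGroup.mk' U.toSubgroup) x = (QuotientGroup.mk' U.toSubgroup) y ↔ _
  rw [QuotientGroup.mk'_apply, QuotientGroup.mk'_apply, QuotientGroup.eq]

variable [T2Space G] [TotallyDisconnectedSpace G]

theorem eq_of_pr {x y : G} (h : ∀ U : OpenNormalSubgroup G, pr U x = pr U y) : x = y := by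
  by_contra hne
  have h1 : IsOpen ({x⁻¹ * y}ᶜ : Set G) := isOpen_compl_singleton
  have h2 : (1 : G) ∈ ({x⁻¹ * y}ᶜ : Set G) := by
    intro h3
    apply hne
    have h4 : (1 : G) = x⁻¹ * y := h3
    rw [eq_comm, inv_mul_eq_one] at h4
    exact h4
  obtain ⟨U, hU⟩ := ProfiniteGrp.exist_openNormalSubgroup_sub_open_nhds_of_one h1 h2
  have h3 : x⁻¹ * y ∈ U.toSubgroup := pr_eq.1 (h U)
  exact hU h3 rfl

theorem mem_of_pr {D : Subgroup G} (hD : IsClosed (D : Set G)) {x : G}
    (h : ∀ U : OpenNormalSubgroup G, pr U x ∈ D.map (pr U)) : x ∈ D := by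
  by_contra hne
  have h1 : IsOpen ((fun g => x * g) ⁻¹' (D : Set G)ᶜ) :=
    hD.isOpen_compl.preimage (continuous_const_mul x)
  have h2 : (1 : G) ∈ ((fun g => x * g) ⁻¹' (D : Set G)ᶜ) := by
    simpa using hne
  obtain ⟨U, hU⟩ := ProfiniteGrp.exist_openNormalSubgroup_sub_open_nhds_of_one h1 h2
  obtain ⟨d, hd, hdx⟩ := h U
  have h3 : x⁻¹ * d ∈ U.toSubgroup := pr_eq.1 hdx.symm
  have h4 := hU h3
  apply h4
  show x * (x⁻¹ * d) ∈ D
  rw [mul_inv_cancel_left]
  exact hd

omit [CompactSpace G] [T2Space G] [TotallyDisconnectedSpace G] in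
theorem isClosed_pow (U : OpenNormalSubgroup G) (p : ℕ) :
    IsClosed {x : G | ∃ k : ℕ, x ^ p ^ k ∈ U.toSubgroup} := by
  have : DiscreteTopology (G ⧸ U.toSubgroup) := QuotientGroup.discreteTopology U.isOpen'
  have h : {x : G | ∃ k : ℕ, x ^ p ^ k ∈ U.toSubgroup} =
      (fun x : G => (x : G ⧸ U.toSubgroup)) ⁻¹' {y | ∃ k : ℕ, y ^ p ^ k = 1} := by
    ext x
    simp only [Set.mem_setOf_eq, Set.mem_preimage]
    refine exists_congr fun k => ?_
    rw [← QuotientGroup.mk_pow, QuotientGroup.eq_one_iff]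
  rw [h]
  exact (isClosed_discrete _).preimage QuotientGroup.continuous_mk

theorem maxClosed_sub (hmax : MaxClosed G) (P : Subgroup G) (hP : IsClosed (P : Set G)) :
    MaxClosed P := by
  intro F hF hcl
  have hemb : Topology.IsClosedEmbedding (Subtype.val : P → G) := hP.isClosedEmbedding_subtypeVal
  obtain ⟨M', ⟨M, hM, rfl⟩, hmx⟩ := hmax ((fun H : Subgroup P => H.map P.subtype) '' F)
    (hF.image _) (by
      rintro _ ⟨H, hH, rfl⟩
      have := hemb.isClosedMap _ (hcl H hH)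
      simpa [Subgroup.coe_map] using this)
  refine ⟨M, hM, fun H hH hle => ?_⟩
  have h1 := hmx (H.map P.subtype) ⟨H, hH, rfl⟩ (Subgroup.map_mono hle)
  exact Subgroup.map_injective P.subtype_injective h1

theorem isProP_sub (p : ℕ) (P : Subgroup G)
    (hP : ∀ x ∈ P, ∀ U : OpenNormalSubgroup G, ∃ k : ℕ, x ^ p ^ k ∈ U.toSubgroup) :
    IsProP p P := by
  intro V
  obtain ⟨O, hO, hOV⟩ := isOpen_induced_iff.1 V.isOpen'
  have h1 : (1 : G) ∈ O := by
    have : (1 : P) ∈ Subtype.val ⁻¹' O := by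
      rw [hOV]
      exact V.toSubgroup.one_mem
    exact this
  obtain ⟨U, hU⟩ := ProfiniteGrp.exist_openNormalSubgroup_sub_open_nhds_of_one hO h1
  intro y
  obtain ⟨x, rfl⟩ := QuotientGroup.mk_surjective y
  obtain ⟨k, hk⟩ := hP x x.2 U
  refine ⟨k, ?_⟩
  rw [← QuotientGroup.mk_pow, QuotientGroup.eq_one_iff]
  have h2 : ((x ^ p ^ k : P) : G) ∈ O := by
    rw [Subgroup.coe_pow]
    exact hU hk
  have h3 : (x ^ p ^ k : P) ∈ Subtype.val ⁻¹' O := h2
  rw [hOV] at h3
  exact h3

omit [TotallyDisconnectedSpace G] in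
theorem closed_sup (s : Finset ℕ) (P : ℕ → Subgroup G)
    (hP : ∀ p ∈ s, (P p).Normal ∧ IsClosed (P p : Set G)) :
    IsClosed ((⨆ p ∈ s, P p : Subgroup G) : Set G) := by
  classical
  induction s using Finset.induction_on with
  | empty => simp
  | insert a s ha ih =>
    rw [Finset.iSup_insert]
    have := (hP a (Finset.mem_insert_self a s)).1
    rw [Subgroup.normal_mul]
    exact ((hP a (Finset.mem_insert_self a s)).2.isCompact.mul
      (ih fun p hp => hP p (Finset.mem_insert_of_mem hp)).isCompact).isClosed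

end prof

theorem t_STR : S_PN.{u} → S_FIN.{u} → S_SYL.{u} → S_NF.{u} → S_STR.{u} := by
  classical
  intro hPN hFIN hSYL hNF G _ _ _ _ _ _ hmax
  obtain ⟨π, hπ, hπ'⟩ := hFIN G hmax
  -- the open normal subgroup
  have hN0 : ∀ s : Finset ℕ, (∀ p ∈ s, p.Prime) → ∃ N : OpenNormalSubgroup G,
      ∀ p ∈ s, ∀ U : OpenNormalSubgroup G, PNil p (N.toSubgroup.map (pr U)) := by
    intro s
    induction s using Finset.induction_on with
    | empty =>
      intro _
      obtain ⟨H, _⟩ := ProfiniteGrp.exist_openNormalSubgroup_sub_open_nhds_of_one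
        (isOpen_univ (X := G)) (Set.mem_univ 1)
      exact ⟨H, by simp⟩
    | insert a s ha ih =>
      intro hp
      obtain ⟨N1, h1⟩ := ih fun p hps => hp p (Finset.mem_insert_of_mem hps)
      obtain ⟨N2, h2⟩ := hPN G hmax a (hp a (Finset.mem_insert_self a s))
      refine ⟨N1 ⊓ N2, fun p hps U => ?_⟩
      have := fin_quot U
      have hnorm : ((N1 ⊓ N2).toSubgroup.map (pr U)).Normal :=
        Subgroup.Normal.map inferInstance _ (QuotientGroup.mk'_surjective _)
      rcases Finset.mem_insert.1 hps with h | h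
      · subst h
        exact pnil_mono (h2 U) hnorm (Subgroup.map_mono (show N1.toSubgroup ⊓ N2.toSubgroup ≤ _
          from inf_le_right))
      · exact pnil_mono (h1 p h U) hnorm (Subgroup.map_mono
          (show N1.toSubgroup ⊓ N2.toSubgroup ≤ _ from inf_le_left))
  obtain ⟨N, hN⟩ := hN0 π hπ
  have hNnorm : ∀ U : OpenNormalSubgroup G, (N.toSubgroup.map (pr U)).Normal := fun U =>
    Subgroup.Normal.map inferInstance _ (QuotientGroup.mk'_surjective _)
  -- S_NF in the quotients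
  have hNFU : ∀ U : OpenNormalSubgroup G,
      (∀ p ∈ π, ∀ x ∈ N.toSubgroup.map (pr U), ∀ y ∈ N.toSubgroup.map (pr U),
        (∃ k : ℕ, x ^ p ^ k = 1) → (∃ k : ℕ, y ^ p ^ k = 1) → ∃ k : ℕ, (x * y) ^ p ^ k = 1) ∧
      (∀ p ∈ π, ∀ q ∈ π, p ≠ q → ∀ x ∈ N.toSubgroup.map (pr U),
        ∀ y ∈ N.toSubgroup.map (pr U), (∃ k : ℕ, x ^ p ^ k = 1) →
        (∃ k : ℕ, y ^ q ^ k = 1) → x * y = y * x) := by
    intro U
    have := fin_quot U
    refine hNF (G ⧸ U.toSubgroup) (N.toSubgroup.map (pr U)) (hNnorm U) π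
      (fun p hp => ⟨hπ p hp, hN p hp U⟩) (fun q hq hqd => ?_)
    exact hπ' U q hq (hqd.trans (Subgroup.card_subgroup_dvd_card _))
  have hpow : ∀ (U : OpenNormalSubgroup G) (x : G) (m : ℕ),
      (x ^ m ∈ U.toSubgroup ↔ (pr U x) ^ m = 1) := by
    intro U x m
    rw [← map_pow, pr_eq_one]
  -- the subgroups P p
  have hPex : ∀ p : ℕ, ∃ H : Subgroup G, p ∈ π → ∀ x : G, (x ∈ H ↔ (x ∈ N.toSubgroup ∧
      ∀ U : OpenNormalSubgroup G, ∃ k : ℕ, x ^ p ^ k ∈ U.toSubgroup)) := by
    intro p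
    by_cases hp : p ∈ π
    · refine ⟨{ carrier := {x | x ∈ N.toSubgroup ∧
                ∀ U : OpenNormalSubgroup G, ∃ k : ℕ, x ^ p ^ k ∈ U.toSubgroup}
                one_mem' := ⟨N.toSubgroup.one_mem, fun U => ⟨0, by
                  rw [one_pow]; exact U.toSubgroup.one_mem⟩⟩
                mul_mem' := ?_
                inv_mem' := ?_ }, fun _ x => Iff.rfl⟩
      · intro a b ha hb
        refine ⟨N.toSubgroup.mul_mem ha.1 hb.1, fun U => ?_⟩
        obtain ⟨k, hk⟩ := (hNFU U).1 p hp (pr U a) (Subgroup.mem_map_of_mem _ ha.1) (pr U b)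
          (Subgroup.mem_map_of_mem _ hb.1)
          ((ha.2 U).imp fun k hk => (hpow U a _).1 hk) ((hb.2 U).imp fun k hk => (hpow U b _).1 hk)
        refine ⟨k, (hpow U _ _).2 ?_⟩
        rw [map_mul]
        exact hk
      · intro a ha
        refine ⟨N.toSubgroup.inv_mem ha.1, fun U => ?_⟩
        obtain ⟨k, hk⟩ := ha.2 U
        refine ⟨k, ?_⟩
        rw [inv_pow]
        exact U.toSubgroup.inv_mem hk
    · exact ⟨⊥, fun h => absurd h hp⟩
  choose P hP using hPex
  have hPclosed : ∀ p ∈ π, IsClosed (P p : Set G) := by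
    intro p hp
    have : (P p : Set G) = (N.toSubgroup : Set G) ∩
        ⋂ U : OpenNormalSubgroup G, {x : G | ∃ k : ℕ, x ^ p ^ k ∈ U.toSubgroup} := by
      ext x
      simp only [SetLike.mem_coe, hP p hp x, Set.mem_inter_iff, Set.mem_iInter, Set.mem_setOf_eq]
    rw [this]
    exact (Subgroup.isClosed_of_isOpen _ N.isOpen').inter
      (isClosed_iInter fun U => isClosed_pow U p)
  have hPnormal : ∀ p ∈ π, (P p).Normal := by
    intro p hp
    refine ⟨fun x hx g => ?_⟩
    rw [hP p hp] at hx ⊢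
    refine ⟨(inferInstance : N.toSubgroup.Normal).conj_mem x hx.1 g, fun U => ?_⟩
    obtain ⟨k, hk⟩ := hx.2 U
    refine ⟨k, ?_⟩
    rw [conj_pow]
    exact (inferInstance : U.toSubgroup.Normal).conj_mem _ hk g
  refine ⟨N.toSubgroup, π, P, inferInstance, N.isOpen', ?_, ?_, ?_⟩
  · intro p hp
    exact ⟨hπ p hp, hPnormal p hp, hPclosed p hp,
      isProP_sub p (P p) fun x hx => ((hP p hp x).1 hx).2, maxClosed_sub hmax _ (hPclosed p hp)⟩
  · intro p hp q hq hpq x hx y hy
    refine eq_of_pr fun U => ?_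
    rw [map_mul, map_mul]
    have hx' := (hP p hp x).1 hx
    have hy' := (hP q hq y).1 hy
    exact (hNFU U).2 p hp q hq hpq _ (Subgroup.mem_map_of_mem _ hx'.1) _
      (Subgroup.mem_map_of_mem _ hy'.1)
      ((hx'.2 U).imp fun k hk => (hpow U x _).1 hk) ((hy'.2 U).imp fun k hk => (hpow U y _).1 hk)
  · have hDN : (⨆ p ∈ π, P p) ≤ N.toSubgroup :=
      iSup₂_le fun p hp x hx => ((hP p hp x).1 hx).1
    refine le_antisymm ?_ hDN
    intro x hx
    refine mem_of_pr (closed_sup π P fun p hp => ⟨hPnormal p hp, hPclosed p hp⟩) fun U => ?_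
    have := fin_quot U
    have hind : ((⨆ p ∈ π, P p).map (pr U)).relIndex (N.toSubgroup.map (pr U)) = 1 := by
      by_contra hne
      obtain ⟨q, hq, hqd⟩ := Nat.exists_prime_and_dvd hne
      have hqcard : q ∣ Nat.card (N.toSubgroup.map (pr U)) :=
        hqd.trans (Subgroup.relIndex_dvd_card _ _)
      have hqπ : q ∈ π := hπ' U q hq (hqcard.trans (Subgroup.card_subgroup_dvd_card _))
      obtain ⟨S, hS, hSp⟩ := hSYL G (⊥ : Subgroup G) N.toSubgroup
        (Subgroup.isClosed_of_isOpen _ N.isOpen')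
        (by
          intro t ht x hx
          rw [Subgroup.mem_bot] at ht
          subst ht
          simpa using hx)
        (fun V => by rw [Subgroup.map_bot]; infer_instance)
        (fun V => by rw [Subgroup.map_bot, Subgroup.card_bot]; exact Nat.coprime_one_left _)
        q hq
      have hSN : S ≤ N.toSubgroup := hS.2.1
      have hSP : S ≤ P q := by
        intro y hy
        rw [hP q hqπ]
        exact ⟨hSN hy, fun V => hSp V y hy⟩
      have hSD : S ≤ ⨆ p ∈ π, P p := hSP.trans (le_iSup₂_of_le q hqπ le_rfl)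
      exact hS.2.2.2 U (hqd.trans (Subgroup.relIndex_dvd_of_le_left _ (Subgroup.map_mono hSD)))
    exact Subgroup.relIndex_eq_one.1 hind (Subgroup.mem_map_of_mem _ hx)

end Run7.h559.MX
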